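import Mathlib

/-!
For every `α > 0` the recurrence `x_{n+1} = (α + x_n) / x_{n-2}` has unbounded positive
solutions.
-/

namespace Pool.Agent.Results.MP_f66a6a_an.Unbounded

/-- The invariant, in logarithmic coordinates. -/
def Inv (X : ℕ → ℝ) (K : ℝ) (n : ℕ) : Prop :=
  X n ≤ K ∧ X (n + 1) ≤ -(20 * K) ∧ X (n + 2) ≤ K ∧ 100 * K ≤ -(X n + X (n + 1) + X (n + 2))

lemma step {X : ℕ → ℝ} {K : ℝ} (hK : 0 < K)
    (hX : ∀ n, |X (n + 3) - (max 0 (X (n + 2)) - X n)| ≤ K) {n : ℕ} (h : Inv X K n) :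
    (∃ m, Inv X K m ∧ -(X n + X (n + 1) + X (n + 2)) + K ≤
      -(X m + X (m + 1) + X (m + 2))) ∧
    -(X n + X (n + 1) + X (n + 2)) - 3 * K ≤ X (n + 5) := by
  obtain ⟨h0, h1, h2, h3⟩ := h
  obtain ⟨a1, b1⟩ := abs_le.1 (hX n)
  obtain ⟨a2, b2⟩ := abs_le.1 (hX (n + 1))
  obtain ⟨a3, b3⟩ := abs_le.1 (hX (n + 2))
  obtain ⟨a4, b4⟩ := abs_le.1 (hX (n + 3))
  obtain ⟨a5, b5⟩ := abs_le.1 (hX (n + 4))
  obtain ⟨a6, b6⟩ := abs_le.1 (hX (n + 5))
  obtain ⟨a7, b7⟩ := abs_le.1 (hX (n + 6))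
  obtain ⟨a8, b8⟩ := abs_le.1 (hX (n + 7))
  rw [show n + 1 + 3 = n + 4 by ring, show n + 1 + 2 = n + 3 by ring] at a2 b2
  rw [show n + 2 + 3 = n + 5 by ring, show n + 2 + 2 = n + 4 by ring] at a3 b3
  rw [show n + 3 + 3 = n + 6 by ring, show n + 3 + 2 = n + 5 by ring] at a4 b4
  rw [show n + 4 + 3 = n + 7 by ring, show n + 4 + 2 = n + 6 by ring] at a5 b5
  rw [show n + 5 + 3 = n + 8 by ring, show n + 5 + 2 = n + 7 by ring] at a6 b6
  rw [show n + 6 + 3 = n + 9 by ring, show n + 6 + 2 = n + 8 by ring] at a7 b7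
  rw [show n + 7 + 3 = n + 10 by ring, show n + 7 + 2 = n + 9 by ring] at a8 b8
  set p := -X n with hp
  set q := -X (n + 1) with hq
  set r := -X (n + 2) with hr
  have e0 : X n = -p := by rw [hp]; ring
  have e1 : X (n + 1) = -q := by rw [hq]; ring
  have e2 : X (n + 2) = -r := by rw [hr]; ring
  rw [e0] at a1 b1
  rw [e1] at a2 b2
  rw [e2] at a1 b1 a3 b3
  rw [e0, e1, e2] at h3 ⊢
  rw [e0] at h0
  rw [e1] at h1
  rw [e2] at h2
  -- first step
  have m0 : 0 ≤ max 0 (-r) := le_max_left _ _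
  have m0' : max 0 (-r) ≤ K := max_le hK.le (by linarith)
  have x1 : p - K ≤ X (n + 3) := by linarith
  have x1' : X (n + 3) ≤ p + 2 * K := by linarith
  -- second step
  have m1 : X (n + 3) ≤ max 0 (X (n + 3)) := le_max_right _ _
  have m1' : max 0 (X (n + 3)) ≤ p + 2 * K := max_le (by linarith) x1'
  have x2 : p + q - 2 * K ≤ X (n + 4) := by linarith
  have x2' : X (n + 4) ≤ p + q + 3 * K := by linarith
  -- third step
  rw [max_eq_right (show (0 : ℝ) ≤ X (n + 4) by linarith)] at a3 b3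
  have x3 : p + q + r - 3 * K ≤ X (n + 5) := by linarith
  have x3' : X (n + 5) ≤ p + q + r + 4 * K := by linarith
  -- fourth step
  rw [max_eq_right (show (0 : ℝ) ≤ X (n + 5) by linarith)] at a4 b4
  have x4 : q + r - 6 * K ≤ X (n + 6) := by linarith
  have x4' : X (n + 6) ≤ q + r + 6 * K := by linarith
  -- fifth step
  rw [max_eq_right (show (0 : ℝ) ≤ X (n + 6) by linarith)] at a5 b5
  have x5 : r - p - 10 * K ≤ X (n + 7) := by linarith
  have x5' : X (n + 7) ≤ r - p + 9 * K := by linarith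
  refine ⟨?_, by linarith⟩
  rcases le_total 0 (X (n + 7)) with hs | hs
  · -- five positive terms
    rw [max_eq_right hs] at a6 b6
    have x6 : -(2 * p + q) - 15 * K ≤ X (n + 8) := by linarith
    have x6' : X (n + 8) ≤ -(2 * p + q) + 13 * K := by linarith
    rw [max_eq_left (show X (n + 8) ≤ 0 by linarith)] at a7 b7
    have x7 : -(q + r) - 7 * K ≤ X (n + 9) := by linarith
    have x7' : X (n + 9) ≤ -(q + r) + 7 * K := by linarith
    rw [max_eq_left (show X (n + 9) ≤ 0 by linarith)] at a8 b8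
    have x8 : X (n + 10) ≤ K := by linarith
    have x8' : X (n + 10) ≤ -(r - p) + 11 * K := by linarith
    refine ⟨n + 8, ⟨?_, ?_, ?_, ?_⟩, ?_⟩
    · linarith
    · show X (n + 9) ≤ _
      linarith
    · exact x8
    · show _ ≤ -(X (n + 8) + X (n + 9) + X (n + 10))
      linarith
    · show _ ≤ -(X (n + 8) + X (n + 9) + X (n + 10))
      linarith
  · -- four positive terms
    rw [max_eq_left hs] at a6 b6
    have x6 : -(p + q + r) - 5 * K ≤ X (n + 8) := by linarith
    have x6' : X (n + 8) ≤ -(p + q + r) + 4 * K := by linarith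
    rw [max_eq_left (show X (n + 8) ≤ 0 by linarith)] at a7 b7
    have x7 : -(q + r) - 7 * K ≤ X (n + 9) := by linarith
    have x7' : X (n + 9) ≤ -(q + r) + 7 * K := by linarith
    refine ⟨n + 7, ⟨?_, ?_, ?_, ?_⟩, ?_⟩
    · linarith
    · show X (n + 8) ≤ _
      linarith
    · show X (n + 9) ≤ _
      linarith
    · show _ ≤ -(X (n + 7) + X (n + 8) + X (n + 9))
      linarith
    · show _ ≤ -(X (n + 7) + X (n + 8) + X (n + 9))
      linarith

/-- Large initial data give unbounded solutions. -/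
lemma unbounded_of_inv {X : ℕ → ℝ} {K : ℝ} (hK : 0 < K)
    (hX : ∀ n, |X (n + 3) - (max 0 (X (n + 2)) - X n)| ≤ K) (h : Inv X K 0) (C : ℝ) :
    ∃ n, C < X n := by
  have key : ∀ j : ℕ, ∃ n, Inv X K n ∧ (100 + j) * K ≤ -(X n + X (n + 1) + X (n + 2)) := by
    intro j
    induction j with
    | zero => exact ⟨0, h, by simpa using h.2.2.2⟩
    | succ j ih =>
      obtain ⟨n, hn, hS⟩ := ih
      obtain ⟨⟨m, hm, hS'⟩, -⟩ := step hK hX hn
      refine ⟨m, hm, ?_⟩
      push_cast
      linarith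
  obtain ⟨j, hj⟩ := exists_nat_gt (C / K)
  rw [div_lt_iff₀ hK] at hj
  obtain ⟨n, hn, hS⟩ := key j
  refine ⟨n + 5, ?_⟩
  have := (step hK hX hn).2
  linarith

/-- The elementary estimate for the logarithm. -/
lemma log_est {α : ℝ} (hα : 0 < α) (t : ℝ) :
    |Real.log (α + Real.exp t) - max 0 t| ≤ |Real.log α| + 1 := by
  have hexp := Real.exp_pos t
  have h1 : Real.log α ≤ Real.log (α + Real.exp t) := Real.log_le_log hα (by linarith)
  have h2 : t ≤ Real.log (α + Real.exp t) := by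
    calc t = Real.log (Real.exp t) := (Real.log_exp t).symm
      _ ≤ _ := Real.log_le_log hexp (by linarith)
  have h3 := neg_abs_le (Real.log α)
  have h3' := le_abs_self (Real.log α)
  have h4 : Real.log (α + Real.exp t) ≤ max 0 t + (|Real.log α| + 1) := by
    rw [Real.log_le_iff_le_exp (by positivity), Real.exp_add, Real.exp_add]
    have g1 : (1 : ℝ) ≤ Real.exp (max 0 t) := Real.one_le_exp (le_max_left _ _)
    have g2 : Real.exp t ≤ Real.exp (max 0 t) := Real.exp_le_exp.2 (le_max_right _ _)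
    have g3 : α ≤ Real.exp |Real.log α| := by
      calc α = Real.exp (Real.log α) := (Real.exp_log hα).symm
        _ ≤ _ := Real.exp_le_exp.2 h3'
    have g4 : (1 : ℝ) ≤ Real.exp |Real.log α| := Real.one_le_exp (abs_nonneg _)
    have g5 : (2 : ℝ) ≤ Real.exp 1 := by
      have := Real.add_one_le_exp (1 : ℝ)
      linarith
    have hM := Real.exp_pos (max 0 t)
    have hL := Real.exp_pos |Real.log α|
    calc α + Real.exp t ≤ Real.exp |Real.log α| * Real.exp (max 0 t) +
          Real.exp |Real.log α| * Real.exp (max 0 t) := by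
          apply add_le_add
          · calc α = α * 1 := (mul_one _).symm
              _ ≤ _ := mul_le_mul g3 g1 zero_le_one hL.le
          · calc Real.exp t = 1 * Real.exp t := (one_mul _).symm
              _ ≤ _ := mul_le_mul g4 g2 hexp.le hL.le
      _ = Real.exp (max 0 t) * (Real.exp |Real.log α| * 2) := by ring
      _ ≤ Real.exp (max 0 t) * (Real.exp |Real.log α| * Real.exp 1) := by gcongr
  rw [abs_le]
  constructor
  · rcases max_cases 0 t with ⟨hm, _⟩ | ⟨hm, _⟩
    · rw [hm]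
      linarith
    · rw [hm]
      linarith
  · linarith

/-- For every `α > 0` and all initial values with `x_0 ≤ 1`, `x_2 ≤ 1` and `x_1` small enough the
solution is unbounded; and such solutions exist. -/
theorem result (α : ℝ) (hα : 0 < α) :
    (∃ δ > 0, ∀ x : ℕ → ℝ, (∀ n, 0 < x n) → (∀ n, x (n + 3) = (α + x (n + 2)) / x n) →
      x 0 ≤ 1 → x 1 ≤ δ → x 2 ≤ 1 → ∀ C : ℝ, ∃ n, C < x n) ∧
    ∃ x : ℕ → ℝ, (∀ n, 0 < x n) ∧ (∀ n, x (n + 3) = (α + x (n + 2)) / x n) ∧
      ∀ C : ℝ, ∃ n, C < x n := by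
  set K := |Real.log α| + 1 with hKdef
  have hK : 0 < K := by positivity
  have main : ∀ x : ℕ → ℝ, (∀ n, 0 < x n) → (∀ n, x (n + 3) = (α + x (n + 2)) / x n) →
      x 0 ≤ 1 → x 1 ≤ Real.exp (-(100 * K)) → x 2 ≤ 1 → ∀ C : ℝ, ∃ n, C < x n := by
    intro x hpos hrec h0 h1 h2 C
    have hX : ∀ n, |Real.log (x (n + 3)) - (max 0 (Real.log (x (n + 2))) - Real.log (x n))| ≤
        K := by
      intro n
      have hp := hpos (n + 2)
      rw [hrec n, Real.log_div (by positivity) (hpos n).ne']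
      have := log_est hα (Real.log (x (n + 2)))
      rw [Real.exp_log (hpos (n + 2))] at this
      rw [← hKdef] at this
      convert this using 2
      ring
    have l0 : Real.log (x 0) ≤ 0 := Real.log_nonpos (hpos 0).le h0
    have l2 : Real.log (x 2) ≤ 0 := Real.log_nonpos (hpos 2).le h2
    have l1 : Real.log (x 1) ≤ -(100 * K) := (Real.log_le_iff_le_exp (hpos 1)).2 h1
    have hinv : Inv (fun n => Real.log (x n)) K 0 := by
      refine ⟨?_, ?_, ?_, ?_⟩
      · show Real.log (x 0) ≤ K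
        linarith
      · show Real.log (x 1) ≤ _
        linarith
      · show Real.log (x 2) ≤ _
        linarith
      · show _ ≤ -(Real.log (x 0) + Real.log (x 1) + Real.log (x 2))
        linarith
    obtain ⟨n, hn⟩ := unbounded_of_inv hK hX hinv C
    refine ⟨n, ?_⟩
    have h3 : Real.log (x n) ≤ x n - 1 := Real.log_le_sub_one_of_pos (hpos n)
    linarith
  refine ⟨⟨_, Real.exp_pos _, main⟩, ?_⟩
  -- existence of a solution with given initial values
  set f : ℕ → ℝ × ℝ × ℝ := fun n =>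
    Nat.rec ((1, Real.exp (-(100 * K)), 1) : ℝ × ℝ × ℝ)
      (fun _ s => (s.2.1, s.2.2, (α + s.2.2) / s.1)) n with hf
  have hfs : ∀ n, f (n + 1) = ((f n).2.1, (f n).2.2, (α + (f n).2.2) / (f n).1) := fun n => rfl
  have hpos : ∀ n, 0 < (f n).1 ∧ 0 < (f n).2.1 ∧ 0 < (f n).2.2 := by
    intro n
    induction n with
    | zero => exact ⟨one_pos, Real.exp_pos _, one_pos⟩
    | succ n ih =>
      rw [hfs]
      exact ⟨ih.2.1, ih.2.2, div_pos (by linarith [ih.2.2]) ih.1⟩
  refine ⟨fun n => (f n).1, fun n => (hpos n).1, fun n => ?_, ?_⟩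
  · show (f (n + 3)).1 = (α + (f (n + 2)).1) / (f n).1
    rw [hfs (n + 2), hfs (n + 1), hfs n]
  · apply main
    · exact fun n => (hpos n).1
    · intro n
      show (f (n + 3)).1 = (α + (f (n + 2)).1) / (f n).1
      rw [hfs (n + 2), hfs (n + 1), hfs n]
    · show (1 : ℝ) ≤ 1
      exact le_rfl
    · show Real.exp (-(100 * K)) ≤ _
      exact le_rfl
    · show (1 : ℝ) ≤ 1
      exact le_rfl

end Pool.Agent.Results.MP_f66a6a_an.Unbounded
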